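import Mathlib
import Pool.Agent.Results.MP_c3273b_gt.LadderTree

/-! MP_c3273b_gt, Q1: every first countable, countably metacompact, weakly `θ`-refinable space is a
clopen subspace of such a space that is not `θ`-refinable. -/

set_option autoImplicit false

namespace Pool.Agent.Results.MP_c3273b_gt.ClopenSummands

open TH778.CMW Set Topology

section
variable {X Y : Type} [TopologicalSpace X] [TopologicalSpace Y]

/-- The sum of a family on `X` and a family on `Y`. -/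
def sm (A : Set (Set X)) (B : Set (Set Y)) : Set (Set (X ⊕ Y)) :=
  (fun V => Sum.inl '' V) '' A ∪ (fun V => Sum.inr '' V) '' B

lemma pl (A : Set (Set X)) (B : Set (Set Y)) (x : X) :
    {W ∈ sm A B | Sum.inl x ∈ W} = (fun V => Sum.inl '' V) '' {V ∈ A | x ∈ V} := by
  ext W
  constructor
  · rintro ⟨⟨V, hV, rfl⟩ | ⟨V, hV, rfl⟩, hW⟩
    · obtain ⟨y, hy, h⟩ := hW
      cases h
      exact ⟨V, ⟨hV, hy⟩, rfl⟩
    · obtain ⟨y, _, h⟩ := hW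
      cases h
  · rintro ⟨V, ⟨hV, hx⟩, rfl⟩
    exact ⟨Or.inl ⟨V, hV, rfl⟩, ⟨x, hx, rfl⟩⟩

lemma pr (A : Set (Set X)) (B : Set (Set Y)) (x : Y) :
    {W ∈ sm A B | Sum.inr x ∈ W} = (fun V => Sum.inr '' V) '' {V ∈ B | x ∈ V} := by
  ext W
  constructor
  · rintro ⟨⟨V, hV, rfl⟩ | ⟨V, hV, rfl⟩, hW⟩
    · obtain ⟨y, _, h⟩ := hW
      cases h
    · obtain ⟨y, hy, h⟩ := hW
      cases h
      exact ⟨V, ⟨hV, hy⟩, rfl⟩
  · rintro ⟨V, ⟨hV, hx⟩, rfl⟩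
    exact ⟨Or.inr ⟨V, hV, rfl⟩, ⟨x, hx, rfl⟩⟩

lemma sm_open {A : Set (Set X)} {B : Set (Set Y)} (hA : ∀ V ∈ A, IsOpen V)
    (hB : ∀ V ∈ B, IsOpen V) : ∀ W ∈ sm A B, IsOpen W := by
  rintro W (⟨V, hV, rfl⟩ | ⟨V, hV, rfl⟩)
  · exact isOpenMap_inl _ (hA V hV)
  · exact isOpenMap_inr _ (hB V hV)

lemma sm_cover {A : Set (Set X)} {B : Set (Set Y)} (hA : OpenCover A) (hB : OpenCover B) :
    OpenCover (sm A B) := by
  refine ⟨sm_open hA.1 hB.1, ?_⟩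
  rw [eq_univ_iff_forall]
  rintro (x | y)
  · obtain ⟨V, hV, hx⟩ : x ∈ ⋃₀ A := hA.2 ▸ mem_univ x
    exact ⟨_, Or.inl ⟨V, hV, rfl⟩, ⟨x, hx, rfl⟩⟩
  · obtain ⟨V, hV, hy⟩ : y ∈ ⋃₀ B := hB.2 ▸ mem_univ y
    exact ⟨_, Or.inr ⟨V, hV, rfl⟩, ⟨y, hy, rfl⟩⟩

lemma pre_cover {Z : Type} [TopologicalSpace Z] {f : Z → X ⊕ Y} (hf : Continuous f)
    {U : Set (Set (X ⊕ Y))} (hU : OpenCover U) : OpenCover ((fun W => f ⁻¹' W) '' U) := by
  constructor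
  · rintro V ⟨W, hW, rfl⟩
    exact (hU.1 W hW).preimage hf
  · rw [eq_univ_iff_forall]
    intro z
    obtain ⟨W, hW, hz⟩ : f z ∈ ⋃₀ U := hU.2 ▸ mem_univ (f z)
    exact ⟨_, ⟨W, hW, rfl⟩, hz⟩

lemma sm_fine {A : Set (Set X)} {B : Set (Set Y)} {U : Set (Set (X ⊕ Y))}
    (hA : OpenFine A ((fun W => Sum.inl ⁻¹' W) '' U))
    (hB : OpenFine B ((fun W => Sum.inr ⁻¹' W) '' U)) : OpenFine (sm A B) U := by
  refine ⟨sm_open hA.1 hB.1, ?_⟩
  rintro W (⟨V, hV, rfl⟩ | ⟨V, hV, rfl⟩)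
  · obtain ⟨_, ⟨T, hT, rfl⟩, hVT⟩ := hA.2 V hV
    exact ⟨T, hT, image_subset_iff.2 hVT⟩
  · obtain ⟨_, ⟨T, hT, rfl⟩, hVT⟩ := hB.2 V hV
    exact ⟨T, hT, image_subset_iff.2 hVT⟩

lemma cmet (hX : CountablyMetacompact X) (hY : CountablyMetacompact Y) :
    CountablyMetacompact (X ⊕ Y) := by
  intro U hc hU
  obtain ⟨A, hA1, hA2, hA3⟩ := hX _ (hc.image _) (pre_cover continuous_inl hU)
  obtain ⟨B, hB1, hB2, hB3⟩ := hY _ (hc.image _) (pre_cover continuous_inr hU)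
  refine ⟨sm A B, sm_cover hA1 hB1, sm_fine hA2 hB2, ?_⟩
  rintro (x | y)
  · rw [pl]
    exact (hA3 x).image _
  · rw [pr]
    exact (hB3 y).image _

lemma sm_iUnion (A : ℕ → Set (Set X)) (B : ℕ → Set (Set Y)) :
    (⋃ n, sm (A n) (B n)) = sm (⋃ n, A n) (⋃ n, B n) := by
  simp only [sm, image_iUnion, iUnion_union_distrib]

lemma wtref (hX : WeaklyThetaRefinable X) (hY : WeaklyThetaRefinable Y) :
    WeaklyThetaRefinable (X ⊕ Y) := by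
  intro U hU
  obtain ⟨A, hA1, hA2, hA3⟩ := hX _ (pre_cover continuous_inl hU)
  obtain ⟨B, hB1, hB2, hB3⟩ := hY _ (pre_cover continuous_inr hU)
  refine ⟨fun n => sm (A n) (B n), ?_, ?_, ?_⟩
  · rw [sm_iUnion]
    exact sm_cover hA1 hB1
  · rw [sm_iUnion]
    exact sm_fine hA2 hB2
  · rintro (x | y)
    · obtain ⟨n, h1, h2⟩ := hA3 x
      refine ⟨n, ?_⟩
      rw [pl]
      exact ⟨h1.image _, h2.image _⟩
    · obtain ⟨n, h1, h2⟩ := hB3 y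
      refine ⟨n, ?_⟩
      rw [pr]
      exact ⟨h1.image _, h2.image _⟩

lemma qdev (hX : QuasiDevelopable X) (hY : QuasiDevelopable Y) : QuasiDevelopable (X ⊕ Y) := by
  obtain ⟨A, hA1, hA2⟩ := hX
  obtain ⟨B, hB1, hB2⟩ := hY
  refine ⟨fun n => sm (A n) (B n), fun n => sm_open (hA1 n) (hB1 n), ?_⟩
  rintro (x | y) V hV hx
  · obtain ⟨n, h1, h2⟩ := hA2 x (Sum.inl ⁻¹' V) (hV.preimage continuous_inl) hx
    refine ⟨n, ?_⟩
    rw [pl]
    constructor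
    · obtain ⟨G, hG, hxG⟩ := h1
      exact ⟨_, ⟨G, hG, rfl⟩, ⟨x, hxG, rfl⟩⟩
    · rintro z ⟨_, ⟨G, hG, rfl⟩, ⟨w, hw, rfl⟩⟩
      exact h2 ⟨G, hG, hw⟩
  · obtain ⟨n, h1, h2⟩ := hB2 y (Sum.inr ⁻¹' V) (hV.preimage continuous_inr) hx
    refine ⟨n, ?_⟩
    rw [pr]
    constructor
    · obtain ⟨G, hG, hxG⟩ := h1
      exact ⟨_, ⟨G, hG, rfl⟩, ⟨y, hxG, rfl⟩⟩
    · rintro z ⟨_, ⟨G, hG, rfl⟩, ⟨w, hw, rfl⟩⟩
      exact h2 ⟨G, hG, hw⟩

lemma not_tref (hX : ¬ ThetaRefinable X) : ¬ ThetaRefinable (X ⊕ Y) := by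
  intro h
  apply hX
  intro U hU
  have hc : OpenCover ({univ} : Set (Set Y)) :=
    ⟨by rintro V rfl; exact isOpen_univ, by simp⟩
  obtain ⟨V, hV1, hV2⟩ := h (sm U {univ}) (sm_cover hU hc)
  refine ⟨fun n => {T | T ∈ (fun W => Sum.inl ⁻¹' W) '' V n ∧ T.Nonempty}, fun n => ?_, ?_⟩
  · have hp := pre_cover continuous_inl (hV1 n).1
    refine ⟨⟨fun T hT => hp.1 T hT.1, ?_⟩, fun T hT => hp.1 T hT.1, ?_⟩
    · rw [eq_univ_iff_forall]
      intro x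
      obtain ⟨T, hT, hx⟩ : x ∈ ⋃₀ ((fun W => Sum.inl ⁻¹' W) '' V n) := hp.2 ▸ mem_univ x
      exact ⟨T, ⟨hT, ⟨x, hx⟩⟩, hx⟩
    · rintro T ⟨⟨W, hW, rfl⟩, x, hx⟩
      obtain ⟨S, hS | hS, hWS⟩ := (hV1 n).2.2 W hW
      · obtain ⟨S0, hS0, rfl⟩ := hS
        refine ⟨S0, hS0, fun z hz => ?_⟩
        obtain ⟨w, hw, h⟩ := hWS hz
        cases h
        exact hw
      · obtain ⟨S0, hS0, rfl⟩ := hS
        obtain ⟨w, hw, h⟩ := hWS hx
        cases h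
  · intro x
    obtain ⟨n, hn⟩ := hV2 (Sum.inl x)
    refine ⟨n, (hn.image fun W => Sum.inl ⁻¹' W).subset ?_⟩
    rintro T ⟨⟨⟨W, hW, rfl⟩, _⟩, hx⟩
    exact ⟨W, ⟨hW, hx⟩, rfl⟩

lemma fct [FirstCountableTopology X] [FirstCountableTopology Y] :
    FirstCountableTopology (X ⊕ Y) := by
  refine ⟨fun z => ?_⟩
  rcases z with x | y
  · rw [_root_.nhds_inl]
    infer_instance
  · rw [_root_.nhds_inr]
    infer_instance

lemma clb (hX : TopologicalSpace.IsTopologicalBasis {s : Set X | IsClopen s})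
    (hY : TopologicalSpace.IsTopologicalBasis {s : Set Y | IsClopen s}) :
    TopologicalSpace.IsTopologicalBasis {s : Set (X ⊕ Y) | IsClopen s} := by
  refine TopologicalSpace.isTopologicalBasis_of_isOpen_of_nhds (fun s hs => hs.2) ?_
  rintro (x | y) V hx hV
  · obtain ⟨S, hS, hxS, hSV⟩ :=
      hX.exists_subset_of_mem_open (u := Sum.inl ⁻¹' V) hx (hV.preimage continuous_inl)
    exact ⟨Sum.inl '' S, ⟨IsClosedEmbedding.inl.isClosedMap _ hS.1, isOpenMap_inl _ hS.2⟩,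
      ⟨x, hxS, rfl⟩, image_subset_iff.2 hSV⟩
  · obtain ⟨S, hS, hxS, hSV⟩ :=
      hY.exists_subset_of_mem_open (u := Sum.inr ⁻¹' V) hx (hV.preimage continuous_inr)
    exact ⟨Sum.inr '' S, ⟨IsClosedEmbedding.inr.isClosedMap _ hS.1, isOpenMap_inr _ hS.2⟩,
      ⟨y, hxS, rfl⟩, image_subset_iff.2 hSV⟩

end

/-- There is a space `X` such that for every Hausdorff, first countable, countably metacompact,
weakly `θ`-refinable space `Y` the sum `X ⊕ Y` is again such a space, and it is not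
`θ`-refinable; if `Y` is quasi-developable, or has a base of clopen sets, then so has `X ⊕ Y`. -/
theorem result : ∃ (X : Type) (_ : TopologicalSpace X),
    ∀ (Y : Type) [TopologicalSpace Y], T2Space Y → FirstCountableTopology Y →
      CountablyMetacompact Y → WeaklyThetaRefinable Y →
        T2Space (X ⊕ Y) ∧ FirstCountableTopology (X ⊕ Y) ∧ CountablyMetacompact (X ⊕ Y) ∧
        WeaklyThetaRefinable (X ⊕ Y) ∧ ¬ ThetaRefinable (X ⊕ Y) ∧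
        (QuasiDevelopable Y → QuasiDevelopable (X ⊕ Y)) ∧
        (TopologicalSpace.IsTopologicalBasis {s : Set Y | IsClopen s} →
          TopologicalSpace.IsTopologicalBasis {s : Set (X ⊕ Y) | IsClopen s}) := by
  obtain ⟨X, _, h1, h2, h3, h4, h5, h6, h7⟩ := LadderTree.result
  refine ⟨X, inferInstance, fun Y _ hY1 hY2 hY3 hY4 => ?_⟩
  exact ⟨inferInstance, fct, cmet h5 hY3, wtref h6 hY4, not_tref h7, fun h => qdev h4 h,
    fun h => clb h2 h⟩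

end Pool.Agent.Results.MP_c3273b_gt.ClopenSummands
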